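import Pool.Agent.H47.VT.Targets6

/-!
# SGC of vdeg_modules: the Dirichlet series of a triple convolution
-/

set_option autoImplicit false

open Complex MeasureTheory Set Filter Asymptotics
open scoped Topology

namespace Pool.Agent.H39.VT

open Pool.Agent.H47.VT

/-- the summatory function, with complex values -/
noncomputable def Sc (f : ℕ → ℝ) (t : ℝ) : ℂ := ∑ n ∈ Finset.Icc 1 ⌊t⌋₊, (f n : ℂ)

/-- `Pf` for complex `s` -/
noncomputable def Pc (f : ℕ → ℝ) (s : ℂ) : ℂ := s * mellin (Sc f) (-s)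

theorem Sc_eq (f : ℕ → ℝ) (t : ℝ) : Sc f t = ((∑ n ∈ Finset.Icc 1 ⌊t⌋₊, f n : ℝ) : ℂ) := by
  simp [Sc]

theorem Sc_zero (f : ℕ → ℝ) {t : ℝ} (ht : t < 1) : Sc f t = 0 := by
  have h : ⌊t⌋₊ = 0 := Nat.floor_eq_zero.2 ht
  simp [Sc, h]

theorem mellin_eq (f : ℕ → ℝ) (s : ℂ) :
    mellin (Sc f) (-s) = ∫ t in Ioi (1 : ℝ), Sc f t * (t : ℂ) ^ (-(s + 1)) := by
  unfold mellin
  have hne : ∀ᵐ x ∂(volume : Measure ℝ), x ≠ 1 := by
    rw [ae_iff]
    simp
  rw [setIntegral_eq_of_subset_of_ae_sdiff_eq_zero (s := Ioi (1 : ℝ)) (t := Ioi (0 : ℝ))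
    measurableSet_Ioi.nullMeasurableSet (Ioi_subset_Ioi zero_le_one) ?_]
  · refine setIntegral_congr_fun measurableSet_Ioi fun t _ => ?_
    simp only [smul_eq_mul]
    rw [mul_comm, show -s - 1 = -(s + 1) by ring]
  · filter_upwards [hne] with x hx h
    have hx1 : x < 1 := lt_of_le_of_ne (not_lt.1 h.2) hx
    rw [Sc_zero f hx1, smul_zero]

theorem Pc_ofReal (f : ℕ → ℝ) (s : ℝ) : Pc f s = (Pf f s : ℂ) := by
  unfold Pc Pf
  rw [mellin_eq, ofReal_mul, ← integral_complex_ofReal]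
  congr 1
  refine setIntegral_congr_fun measurableSet_Ioi fun t ht => ?_
  have ht0 : (0 : ℝ) ≤ t := (zero_lt_one.trans (mem_Ioi.1 ht)).le
  simp only [Sc_eq]
  rw [ofReal_mul, ofReal_cpow ht0]
  congr 2
  push_cast
  ring

theorem diff {f : ℕ → ℝ} {A a : ℝ} (ha : 0 ≤ a)
    (hA : ∀ N : ℕ, 1 ≤ N → |∑ n ∈ Finset.Icc 1 N, f n| ≤ A * (N : ℝ) ^ a) {s : ℂ}
    (hs : a < s.re) : DifferentiableAt ℂ (Pc f) s := by
  have hA0 : 0 ≤ A := by
    have := (abs_nonneg _).trans (hA 1 le_rfl)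
    simpa using this
  have hm : DifferentiableAt ℂ (mellin (Sc f)) (-s) := by
    refine mellin_differentiableAt_of_isBigO_rpow (a := -a) (b := -s.re - 1) ?_ ?_ ?_ ?_ ?_
    · have h := locallyIntegrableOn_mul_sum_Icc (𝕜 := ℂ) (fun n => (f n : ℂ)) (m := 1)
        (le_refl (0 : ℝ)) (g := fun _ => (1 : ℂ)) (locallyIntegrableOn_const _)
      refine (h.mono_set Ioi_subset_Ici_self).congr ?_
      exact Eventually.of_forall fun t => by simp [Sc]
    · refine IsBigO.of_bound A ?_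
      filter_upwards [eventually_ge_atTop (1 : ℝ)] with t ht
      have ht0 : (0 : ℝ) ≤ t := zero_le_one.trans ht
      rw [Sc_eq, norm_real, Real.norm_eq_abs, Real.norm_eq_abs, neg_neg,
        abs_of_nonneg (Real.rpow_nonneg ht0 a)]
      refine (hA _ (Nat.one_le_floor_iff _ |>.2 ht)).trans ?_
      exact mul_le_mul_of_nonneg_left (Real.rpow_le_rpow (Nat.cast_nonneg _)
        (Nat.floor_le ht0) ha) hA0
    · simpa using hs
    · refine (isBigO_zero _ _).congr' ?_ EventuallyEq.rfl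
      filter_upwards [mem_nhdsWithin_of_mem_nhds (Iio_mem_nhds (zero_lt_one (α := ℝ)))] with t ht
      exact (Sc_zero f ht).symm
    · simp
  have h2 : DifferentiableAt ℂ (fun s => mellin (Sc f) (-s)) s :=
    DifferentiableAt.comp (g := mellin (Sc f)) s hm differentiableAt_id.neg
  exact differentiableAt_id.mul h2

theorem lser {f : ℕ → ℝ} {A a : ℝ} (ha : 0 ≤ a)
    (hA : ∀ N : ℕ, 1 ≤ N → |∑ n ∈ Finset.Icc 1 N, f n| ≤ A * (N : ℝ) ^ a) {s : ℂ}
    (hs : a < s.re) (hS : LSeriesSummable (fun n => (f n : ℂ)) s) :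
    LSeries (fun n => (f n : ℂ)) s = Pc f s := by
  have h := LSeries_eq_mul_integral (fun n => (f n : ℂ)) ha hs hS ?_
  · rw [h]
    unfold Pc
    rw [mellin_eq]
    rfl
  · refine IsBigO.of_bound A ?_
    filter_upwards [eventually_ge_atTop 1] with N hN
    have h1 : (∑ k ∈ Finset.Icc 1 N, (f k : ℂ)) = ((∑ k ∈ Finset.Icc 1 N, f k : ℝ) : ℂ) := by
      push_cast
      rfl
    rw [h1, norm_real, Real.norm_eq_abs, Real.norm_eq_abs,
      abs_of_nonneg (Real.rpow_nonneg (Nat.cast_nonneg _) a)]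
    exact hA N hN

/-- the arithmetic function with complex values -/
noncomputable def fc (f : ArithmeticFunction ℝ) : ArithmeticFunction ℂ :=
  ⟨fun n => (f n : ℂ), by simp⟩

theorem fc_apply (f : ArithmeticFunction ℝ) (n : ℕ) : fc f n = (f n : ℂ) := rfl

theorem fc_mul (f g : ArithmeticFunction ℝ) : fc (f * g) = fc f * fc g := by
  ext n
  rw [fc_apply, ArithmeticFunction.mul_apply, ArithmeticFunction.mul_apply]
  push_cast
  rfl

/-- the Dirichlet series of a triple Dirichlet convolution -/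
theorem sgc (hSGA : T_SGA) (f₁ f₂ f₃ : ArithmeticFunction ℝ) (B : ℝ)
    (hb : ∀ n, |f₁ n| ≤ 1 ∧ |f₂ n| ≤ 1 ∧ |f₃ n| ≤ 1)
    (hB : ∀ N : ℕ, |∑ n ∈ Finset.Icc 1 N, f₁ n| ≤ B ∧ |∑ n ∈ Finset.Icc 1 N, f₂ n| ≤ B ∧
      |∑ n ∈ Finset.Icc 1 N, f₃ n| ≤ B) (s : ℝ) (hs : 3 / 4 < s) :
    Pf (f₁ * (f₂ * f₃) : ArithmeticFunction ℝ) s = Pf f₁ s * Pf f₂ s * Pf f₃ s := by
  obtain ⟨C, _, hSGA⟩ := hSGA
  have hg := hSGA f₁ f₂ f₃ (max B 1) (le_max_right _ _) hb fun N =>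
    ⟨(hB N).1.trans (le_max_left _ _), (hB N).2.1.trans (le_max_left _ _),
      (hB N).2.2.trans (le_max_left _ _)⟩
  have b1 : ∀ N : ℕ, 1 ≤ N → |∑ n ∈ Finset.Icc 1 N, f₁ n| ≤ B * (N : ℝ) ^ (0 : ℝ) := fun N _ => by
    rw [Real.rpow_zero, mul_one]
    exact (hB N).1
  have b2 : ∀ N : ℕ, 1 ≤ N → |∑ n ∈ Finset.Icc 1 N, f₂ n| ≤ B * (N : ℝ) ^ (0 : ℝ) := fun N _ => by
    rw [Real.rpow_zero, mul_one]
    exact (hB N).2.1
  have b3 : ∀ N : ℕ, 1 ≤ N → |∑ n ∈ Finset.Icc 1 N, f₃ n| ≤ B * (N : ℝ) ^ (0 : ℝ) := fun N _ => by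
    rw [Real.rpow_zero, mul_one]
    exact (hB N).2.2
  have sm : ∀ (f : ArithmeticFunction ℝ), (∀ n, |f n| ≤ 1) → ∀ z : ℂ, 1 < z.re →
      LSeriesSummable (fun n => fc f n) z := fun f hf z hz =>
    LSeriesSummable_of_bounded_of_one_lt_re (m := 1) (fun n _ => by
      rw [fc_apply, norm_real, Real.norm_eq_abs]
      exact hf n) hz
  have hU : IsOpen {z : ℂ | 3 / 4 < z.re} := isOpen_lt continuous_const continuous_re
  have hUc : IsPreconnected {z : ℂ | 3 / 4 < z.re} := (convex_halfSpace_re_gt _).isPreconnected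
  have h1 : AnalyticOnNhd ℂ (Pc (f₁ * (f₂ * f₃) : ArithmeticFunction ℝ)) {z : ℂ | 3 / 4 < z.re} :=
    DifferentiableOn.analyticOnNhd (fun z hz =>
      (diff (by norm_num) hg hz).differentiableWithinAt) hU
  have hpos : ∀ z : ℂ, 3 / 4 < z.re → (0 : ℝ) < z.re := fun z hz => lt_trans (by norm_num) hz
  have h2 : AnalyticOnNhd ℂ (fun z => Pc f₁ z * Pc f₂ z * Pc f₃ z) {z : ℂ | 3 / 4 < z.re} :=
    DifferentiableOn.analyticOnNhd (fun z hz =>
      (((diff le_rfl b1 (hpos z hz)).mul (diff le_rfl b2 (hpos z hz))).mul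
        (diff le_rfl b3 (hpos z hz))).differentiableWithinAt) hU
  have h3 : Pc (f₁ * (f₂ * f₃) : ArithmeticFunction ℝ) =ᶠ[𝓝 (2 : ℂ)]
      fun z => Pc f₁ z * Pc f₂ z * Pc f₃ z := by
    have hn : {z : ℂ | 1 < z.re} ∈ 𝓝 (2 : ℂ) :=
      (isOpen_lt continuous_const continuous_re).mem_nhds (by norm_num)
    filter_upwards [hn] with z hz
    have hz' : (1 : ℝ) < z.re := hz
    have hz0 : (0 : ℝ) < z.re := zero_lt_one.trans hz'
    have s1 := sm f₁ (fun n => (hb n).1) z hz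
    have s2 := sm f₂ (fun n => (hb n).2.1) z hz
    have s3 := sm f₃ (fun n => (hb n).2.2) z hz
    have s23 : LSeriesSummable (fun n => fc (f₂ * f₃) n) z := by
      rw [fc_mul]
      exact ArithmeticFunction.LSeriesSummable_mul s2 s3
    have s123 : LSeriesSummable (fun n => fc (f₁ * (f₂ * f₃)) n) z := by
      rw [fc_mul]
      exact ArithmeticFunction.LSeriesSummable_mul s1 s23
    have e1 : LSeries (fun n => fc f₁ n) z = Pc f₁ z := lser le_rfl b1 hz0 s1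
    have e2 : LSeries (fun n => fc f₂ n) z = Pc f₂ z := lser le_rfl b2 hz0 s2
    have e3 : LSeries (fun n => fc f₃ n) z = Pc f₃ z := lser le_rfl b3 hz0 s3
    have e : LSeries (fun n => fc (f₁ * (f₂ * f₃)) n) z =
        Pc (f₁ * (f₂ * f₃) : ArithmeticFunction ℝ) z :=
      lser (by norm_num) hg (lt_trans (by norm_num) hz') s123
    rw [← e, ← e1, ← e2, ← e3, fc_mul, ArithmeticFunction.LSeries_mul' s1 s23, fc_mul,
      ArithmeticFunction.LSeries_mul' s2 s3, mul_assoc]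
  have h4 := h1.eqOn_of_preconnected_of_eventuallyEq h2 hUc
    (show (2 : ℂ) ∈ {z : ℂ | 3 / 4 < z.re} by norm_num) h3
  have h5 := h4 (show ((s : ℝ) : ℂ) ∈ {z : ℂ | 3 / 4 < z.re} by simpa using hs)
  simp only [Pc_ofReal] at h5
  exact_mod_cast h5

theorem pf_SGC (hSGA : T_SGA) : T_SGC := fun f₁ f₂ f₃ B hb hB s hs =>
  sgc hSGA f₁ f₂ f₃ B hb hB s hs

end Pool.Agent.H39.VT
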